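import Mathlib

open Matrix

namespace Pool.Agent.Results.MP_aa1cdf_co.Cex

/-- The value of the quadratic form with Gram matrix `Q` at an integer vector. -/
def qv {g : ℕ} (Q : Matrix (Fin g) (Fin g) ℝ) (w : Fin g → ℤ) : ℝ :=
  (fun i => (w i : ℝ)) ⬝ᵥ (Q *ᵥ fun i => (w i : ℝ))

/-- The nonzero integer vectors at which the form attains its minimum over nonzero integer vectors. -/
def MinV {g : ℕ} (Q : Matrix (Fin g) (Fin g) ℝ) : Set (Fin g → ℤ) :=
  {w | w ≠ 0 ∧ ∀ u : Fin g → ℤ, u ≠ 0 → qv Q w ≤ qv Q u}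

/-- The lattice of integral symmetric matrices. -/
def Sym2Z (g : ℕ) : Submodule ℤ (Matrix (Fin g) (Fin g) ℤ) where
  carrier := {M | M.IsSymm}
  add_mem' := fun ha hb => ha.add hb
  zero_mem' := Matrix.isSymm_zero
  smul_mem' := fun c _ h => h.smul c

def G (c : ℕ) : ℕ := List.getD [479233, 3680258, 2091012, 1355784, 2932752, 2811936, 4038720, 505984,
  2019584, 2335232, 695296] c 0

def t (r c : ℕ) : ℤ := cond (Nat.blt c 11) (cond ((G c).testBit r) 1 0) (cond (Nat.beq r c) 2 0)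

def w (r c : ℕ) : ℤ := cond (Nat.blt r 11) (cond (Nat.beq r c) 2 0)
  (cond (Nat.blt c 11) (cond ((G c).testBit r) (-1) 0) (cond (Nat.beq r c) 1 0))

def T : Matrix (Fin 22) (Fin 22) ℤ := fun r c => t r c
def V : Matrix (Fin 22) (Fin 22) ℤ := fun r c => w r c

def sm (f : ℕ → ℤ) : ℕ → ℤ
  | 0 => 0
  | k + 1 => sm f k + f k

theorem sm_eq (f : ℕ → ℤ) (k : ℕ) : sm f k = ∑ i ∈ Finset.range k, f i := by
  induction k with
  | zero => rfl
  | succ k ih => rw [sm, ih, Finset.sum_range_succ]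

theorem run1 : ((List.range 22).all fun i => (List.range 22).all fun j =>
    decide (sm (fun k => t i k * w k j) 22 = cond (Nat.beq i j) 2 0) &&
    decide (sm (fun k => w i k * t k j) 22 = cond (Nat.beq i j) 2 0) &&
    decide (sm (fun k => w i k * w j k) 22 % 2 = 0) &&
    decide (t i j % 2 = cond ((G j).testBit i) 1 0)) = true := by decide +kernel

theorem facts (i j : Fin 22) : (T * V) i j = (if i = j then 2 else 0) ∧ (V * T) i j = (if i = j then 2 else 0) ∧
    (∑ k, V i k * V j k) % 2 = 0 ∧ t i j % 2 = cond ((G j).testBit i) 1 0 := by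
  have h := run1
  simp only [List.all_eq_true, List.mem_range, Bool.and_eq_true, decide_eq_true_eq, sm_eq] at h
  obtain ⟨⟨⟨a, b⟩, c⟩, d⟩ := h i i.2 j j.2
  have e : cond (Nat.beq i j) (2 : ℤ) 0 = if i = j then 2 else 0 := by
    by_cases h : i = j
    · simp [h]
    · have : Nat.beq i j = false := by
        rw [Bool.eq_false_iff, ne_eq, Nat.beq_eq]; exact fun e => h (Fin.ext e)
      simp [h, this]
  rw [← Fin.sum_univ_eq_sum_range (fun k => t i k * w k j), e] at a
  rw [← Fin.sum_univ_eq_sum_range (fun k => w i k * t k j), e] at b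
  rw [← Fin.sum_univ_eq_sum_range (fun k => w i k * w j k)] at c
  exact ⟨a, b, c, d⟩

theorem TV : T * V = (2 : ℤ) • (1 : Matrix _ _ ℤ) := by
  ext i j; rw [(facts i j).1]; simp [one_apply]

theorem VT : V * T = (2 : ℤ) • (1 : Matrix _ _ ℤ) := by
  ext i j; rw [(facts i j).2.1]; simp [one_apply]

def frc (x : ℕ) (k : ℕ → Bool) : Bool := Nat.rec (k 0) (fun n _ => k (Nat.succ n)) x

theorem frc_eq (x : ℕ) (k : ℕ → Bool) : frc x k = k x := by cases x <;> rfl

def pop (m : ℕ) : ℕ → ℕ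
  | 0 => 0
  | k + 1 => cond (m.testBit k) (pop m k + 1) (pop m k)

def chk : ℕ → ℕ → Bool
  | 0, m => Nat.beq m 0 || Nat.ble 5 (pop m 22)
  | k + 1, m => chk k m && (Nat.beq (G k) 0 || frc (m ^^^ G k) (chk k))

theorem run2 : chk 22 0 = true := by decide +kernel

def msk (x : ℕ → ℤ) : ℕ → ℕ
  | 0 => 0
  | k + 1 => if x k % 2 = 1 then msk x k ^^^ G k else msk x k

theorem chk_sound (x : ℕ → ℤ) : ∀ k m, chk k m = true → m ^^^ msk x k = 0 ∨ 5 ≤ pop (m ^^^ msk x k) 22 := by
  intro k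
  induction k with
  | zero => intro m h; simpa [chk, msk] using h
  | succ k ih =>
    intro m h
    simp only [chk, Bool.and_eq_true, Bool.or_eq_true, Nat.beq_eq, frc_eq] at h
    rw [msk]
    split_ifs
    · rcases h.2 with e | e
      · rw [e, Nat.xor_zero]; exact ih m h.1
      · rw [Nat.xor_comm (msk x k), ← Nat.xor_assoc]; exact ih _ e
    · exact ih m h.1

theorem msk_bit (x : ℕ → ℤ) (r : Fin 22) : ∀ k ≤ 22,
    (∑ c ∈ Finset.range k, t r c * x c) % 2 = cond ((msk x k).testBit r) 1 0 := by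
  intro k
  induction k with
  | zero => intro _; simp [msk]
  | succ k ih =>
    intro hk
    have h1 := ih (by omega)
    have h2 := (facts r ⟨k, by omega⟩).2.2.2
    rw [Finset.sum_range_succ, Int.add_emod, Int.mul_emod, h1]
    simp only at h2
    rw [h2, msk]
    rcases Int.emod_two_eq_zero_or_one (x k) with e | e <;> simp only [e] <;>
      cases h3 : (msk x k).testBit r <;> cases h4 : (G k).testBit r <;> simp [h3, h4]

theorem pop_eq (m k : ℕ) : (pop m k : ℤ) = ∑ r ∈ Finset.range k, cond (m.testBit r) 1 0 := by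
  induction k with
  | zero => rfl
  | succ k ih => rw [pop, Finset.sum_range_succ, ← ih]; cases m.testBit k <;> simp

theorem par (x : Fin 22 → ℤ) : (∀ r, (T *ᵥ x) r % 2 = 0) ∨ 5 ≤ ∑ r, (T *ᵥ x) r ^ 2 := by
  let y : ℕ → ℤ := fun c => if h : c < 22 then x ⟨c, h⟩ else 0
  have e : ∀ r, (T *ᵥ x) r % 2 = cond ((msk y 22).testBit r) 1 0 := by
    intro r
    rw [← msk_bit y r 22 le_rfl, ← Fin.sum_univ_eq_sum_range (fun c => t r c * y c)]
    simp [y, mulVec, dotProduct, T]
  rcases chk_sound y 22 0 run2 with h | h <;> rw [Nat.zero_xor] at h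
  · left; intro r; rw [e, h]; simp
  · right
    have : (5 : ℤ) ≤ pop (msk y 22) 22 := by exact_mod_cast h
    rw [pop_eq, ← Fin.sum_univ_eq_sum_range (fun r => cond ((msk y 22).testBit r) (1 : ℤ) 0)] at this
    refine this.trans (Finset.sum_le_sum fun r _ => ?_)
    rw [← e]
    rcases Int.emod_two_eq_zero_or_one ((T *ᵥ x) r) with h | h <;> rw [h]
    · positivity
    · have : (T *ᵥ x) r ≠ 0 := by intro h0; rw [h0] at h; simp at h
      have := sq_pos_of_ne_zero this
      omega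

def v (i : Fin 22) : Fin 22 → ℤ := fun r => V r i

theorem Tv (i : Fin 22) : T *ᵥ v i = Pi.single i 2 := by
  ext r
  have := (facts r i).1
  rw [mul_apply] at this
  rw [Pi.single_apply, ← this]; rfl

theorem low (x : Fin 22 → ℤ) (hx : x ≠ 0) : 4 ≤ ∑ r, (T *ᵥ x) r ^ 2 ∧
    (∑ r, (T *ᵥ x) r ^ 2 ≤ 4 → ∃ i, x = v i ∨ x = -v i) := by
  rcases par x with h | h
  swap
  · exact ⟨by omega, fun g => by omega⟩
  obtain ⟨z, hz⟩ : ∃ z : Fin 22 → ℤ, T *ᵥ x = (2 : ℤ) • z :=
    ⟨fun r => (T *ᵥ x) r / 2, by ext r; have := h r; simp only [Pi.smul_apply, smul_eq_mul]; omega⟩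
  have hV : x = V *ᵥ z := by
    have : V *ᵥ (T *ᵥ x) = (2 : ℤ) • x := by rw [mulVec_mulVec, VT, smul_mulVec, one_mulVec]
    rw [hz, mulVec_smul] at this
    exact (smul_right_injective _ two_ne_zero this).symm
  obtain ⟨i, hi⟩ : ∃ i, z i ≠ 0 := by
    by_contra hc
    push Not at hc
    exact hx (by rw [hV, show z = 0 from funext hc, mulVec_zero])
  have e : ∑ r, (T *ᵥ x) r ^ 2 = 4 * (z i ^ 2 + ∑ r ∈ Finset.univ.erase i, z r ^ 2) := by
    rw [Finset.add_sum_erase _ (fun r => z r ^ 2) (Finset.mem_univ i), Finset.mul_sum, hz]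
    exact Finset.sum_congr rfl fun r _ => by simp only [Pi.smul_apply, smul_eq_mul]; ring
  have p1 := sq_pos_of_ne_zero hi
  have p2 : 0 ≤ ∑ r ∈ Finset.univ.erase i, z r ^ 2 := Finset.sum_nonneg fun r _ => sq_nonneg _
  refine ⟨by omega, fun g => ⟨i, ?_⟩⟩
  have p3 : ∑ r ∈ Finset.univ.erase i, z r ^ 2 = 0 := by omega
  rw [Finset.sum_eq_zero_iff_of_nonneg fun r _ => sq_nonneg _] at p3
  have p4 : z = Pi.single i (z i) := by
    ext r
    by_cases hr : r = i
    · simp [hr]
    · simpa [hr] using p3 r (by simp [hr])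
  have p5 : z i ^ 2 = 1 := by omega
  rw [hV, p4]
  rcases (sq_eq_sq_iff_eq_or_eq_neg (a := z i) (b := 1)).1 (by simpa using p5) with h1 | h1 <;> rw [h1]
  · left; ext r; simp [v]
  · right; ext r; simp [v]

noncomputable def TR : Matrix (Fin 22) (Fin 22) ℝ := T.map (Int.castRingHom ℝ)

theorem qv_eq (x : Fin 22 → ℤ) : qv (TRᴴ * TR) x = ((∑ r, (T *ᵥ x) r ^ 2 : ℤ) : ℝ) := by
  have e : (TR *ᵥ fun i => (x i : ℝ)) = fun r => (((T *ᵥ x) r : ℤ) : ℝ) := by
    ext r; simp [TR, mulVec, dotProduct]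
  rw [qv, ← mulVec_mulVec, conjTranspose_eq_transpose_of_trivial, dotProduct_mulVec, vecMul_transpose, e]
  simp [dotProduct, sq]

theorem qv_v (i : Fin 22) : ∑ r, (T *ᵥ v i) r ^ 2 = 4 := by
  rw [Tv, Finset.sum_eq_single i] <;> simp +contextual

theorem v_ne (i : Fin 22) : v i ≠ 0 := by
  intro h
  have := qv_v i
  simp [h] at this

theorem result : ∃ (v : Fin 22 → Fin 22 → ℤ) (Q : Matrix (Fin 22) (Fin 22) ℝ), LinearIndependent ℤ v ∧
    Q.PosDef ∧ MinV Q = {w | ∃ i, w = v i ∨ w = -v i} ∧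
    ¬ ∃ (ι : Type) (b : Module.Basis ι ℤ (Sym2Z 22)) (f : Fin 22 → ι), Function.Injective f ∧
      ∀ i, (b (f i) : Matrix (Fin 22) (Fin 22) ℤ) = vecMulVec (v i) (v i) := by
  refine ⟨v, TRᴴ * TR, ?_, PosDef.conjTranspose_mul_self _ ?_, ?_, ?_⟩
  · rw [Fintype.linearIndependent_iff]
    intro g hg i
    have := congrArg (fun x => (T *ᵥ x) i) hg
    simp only [mulVec_sum, mulVec_smul, Tv] at this
    simpa [Pi.single_apply] using this
  · have : V.map (Int.castRingHom ℝ) * TR = (2 : ℝ) • (1 : Matrix _ _ ℝ) := by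
      rw [TR, ← Matrix.map_mul, VT]
      ext i j
      rw [map_apply, Matrix.smul_apply, Matrix.smul_apply]
      by_cases h : i = j <;> simp [h, one_apply]
    intro a b h
    have h2 := congrArg (fun x => V.map (Int.castRingHom ℝ) *ᵥ x) h
    simp only [mulVec_mulVec, this, smul_mulVec, one_mulVec] at h2
    exact smul_right_injective _ two_ne_zero h2
  · ext x
    simp only [MinV, Set.mem_ofPred_eq, qv_eq, Int.cast_le]
    constructor
    · rintro ⟨h1, h2⟩
      exact (low x h1).2 ((h2 _ (v_ne 0)).trans (qv_v 0).le)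
    · rintro ⟨i, rfl | rfl⟩
      · exact ⟨v_ne i, fun u hu => (qv_v i).le.trans (low u hu).1⟩
      · refine ⟨neg_ne_zero.2 (v_ne i), fun u hu => ?_⟩
        simp only [mulVec_neg, Pi.neg_apply, neg_sq]
        exact (qv_v i).le.trans (low u hu).1
  · rintro ⟨ι, b, f, hf, hb⟩
    let M : Sym2Z 22 := ⟨fun i j => (∑ k, V i k * V j k) / 2, by
      ext i j; simp only [transpose_apply, mul_comm]⟩
    have e : (2 : ℤ) • M = ∑ i, b (f i) := by
      apply Subtype.ext
      rw [Submodule.coe_sum, Submodule.coe_smul]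
      ext i j
      have := (facts i j).2.2.1
      simp only [hb, Matrix.sum_apply, vecMulVec_apply, v]
      show 2 * ((∑ k, V i k * V j k) / 2) = _
      omega
    have := congrArg (fun x => b.repr x (f 0)) e
    classical
    simp only [map_smul, map_sum, Module.Basis.repr_self, Finsupp.smul_apply, smul_eq_mul,
      Finsupp.finsetSum_apply, Finsupp.single_apply, hf.eq_iff, Finset.sum_ite_eq', Finset.mem_univ,
      if_true] at this
    omega

end Pool.Agent.Results.MP_aa1cdf_co.Cex
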